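import Pool.Agent.TH820.LG.TowerMain

/-!
# The edge line over extensions with large linear and alternating groups

`X` is a smooth projective variety over a number field `K`; in the question `K = ℚ`.  For a number field
`E ⊇ K` the variety `X_E`, seen as a variety over `ℚ`, is smooth and projective, with the `L`-function
`L(H^i(X_E), s)`, an Euler product over the primes of `E`.  Let `F/K` be a finite Galois extension whose
Galois group has a normal subgroup with abelian quotient that has a series of normal subgroups of
`Gal(F/K)`, whose factors are quotients of groups `SL_m(k)`, `k` a finite field, on which `Gal(F/K)` acts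
through `GL_m(k)`, or quotients of alternating groups `A_m` on which it acts through the symmetric group
`S_m`.  For example `Gal(F/K)` is `S_m`, or `F` is the field cut out by a representation of `Gal(K̄/K)` on
`k^m` whose image contains `SL_m(k)`.  The numbers `m` have to be large compared with the Betti number,
the fields `k` are arbitrary.  The definitions are in `Pool.Agent.TH820.LG.TowerDefs`,
`Pool.Agent.TH820.LG.ExtDefs`, `Pool.Agent.TH820.LG.Defs`, `Pool.Agent.W353.AT.Defs`,
`Pool.Agent.W353.EH.Defs` and `Pool.Agent.W353.EF.Defs`.
-/

set_option autoImplicit false

namespace Pool.Agent.Results.MP_039d94_nt.LinearGroups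

open NumberField

/-- **The edge line over extensions with large linear and alternating groups.**  For every `N` there is a
number `n₀` with the following property.  Let `X` be a projective variety of dimension `d` over a number
field `K`, `0 ≤ i ≤ 2d`, `N` the `i`-th Betti number, `τ` real, and `F/K` a finite Galois extension with a
tower `K ⊆ M = T_0 ⊆ T_1 ⊆ … ⊆ T_r = F` of Galois extensions of `K` such that `Gal(M/K)` is abelian and each
`Gal(T_{j+1}/T_j)` is, for some `m ≥ n₀`, a quotient of `SL_m(k)`, `k` a finite field, on which
`Gal(T_{j+1}/K)` acts through `GL_m(k)`, or a quotient of `A_m` on which it acts through `S_m`.  Suppose that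
`L(H^i(X) ⊗ χ, s)` has a meromorphic continuation to a neighbourhood of the one point `i/2 + 1 + iτ` for
all irreducible representations `χ` of `Gal(F/K)` of dimension `≠ 1`.
* All these functions have neither a zero nor a pole at `i/2 + 1 + iτ`.
* Let `E` be any field with `K ⊆ E ⊆ F` and `E₀` its largest subfield that is abelian over `K`.  The
  values of `log |L(i/2 + 1 + iτ + ε)| / log(1/ε)` for `L(H^i(X_E), s)` and `L(H^i(X_{E₀}), s)` differ by a
  null function, and the orders of these functions at `i/2 + 1 + iτ`, if they exist, are equal: a pole
  over `E` comes from a pole over the abelian field `E₀`. -/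
theorem result (N : ℕ) : ∃ n₀ : ℕ, ∀ (K : Type) [Field K] [NumberField K] (l d i : ℕ)
    (X : Set (MvPolynomial (Fin l) (𝓞 K))), i ≤ 2 * d →
    Pool.Agent.TH820.LG.LargeExtensionOrders X d i N n₀ :=
  Pool.Agent.TH820.LG.largeExtensionOrders N

end Pool.Agent.Results.MP_039d94_nt.LinearGroups
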